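import Pool.Agent.Helper9.UNI.AsmR
import Pool.Agent.Helper66.UNI.LMT3u
import Pool.Agent.Helper66.UNI.CONCu
import Pool.Agent.Helper25.UNI.CONC3u
import Pool.Agent.Helper67.UNI.CMKu
import Pool.Agent.Helper53.UNI.CPTMu

/-! Assembly of project UNI (MP_9a3c31_nt), concentration: constants depending on the degree only. -/

set_option autoImplicit false

namespace Pool.Agent.Helper9.UNI

open Pool.Agent.Helper42.LS Pool.Agent.Helper42.LK Pool.Agent.Helper54.LS Pool.Agent.Helper54.LM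
  Pool.Agent.Helper92.LV Pool.Agent.Helper9.LS5 Pool.Agent.Helper54.LM3

theorem u_MT3L : ST_LMT3u :=
  Pool.Agent.Helper66.UNI.LMT3u c_lb2 u_LS lmall_CX st_LSQ st_LMAP st_KGO st_KPOT kall_DF st_KFP
    u_SIX

theorem u_CONC : ST_CONCu := Pool.Agent.Helper66.UNI.CONCu u_MT3L c_cfin SGN u_LREG kall_DF u_SIX

theorem u_CONC3 : ST_CONC3u :=
  Pool.Agent.Helper25.UNI.CONC3u u_MT3L (CFIN3 (LSRM3 LSR3) lmall_BF) SGN u_LREG kall_DF u_SIX

theorem u_PTM : ST_CPTMu :=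
  Pool.Agent.Helper53.UNI.CPTMu st_LGL lmall_CH u_CONC u_CONC3
    (Pool.Agent.Helper67.UNI.CMKu kall_DF u_SIX) kall_DF

end Pool.Agent.Helper9.UNI
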