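import Pool.Agent.Helper9.UNI.AsmS
import Pool.Agent.Helper53.UNI.LLSu
import Pool.Agent.Helper33.UNI.LMTu
import Pool.Agent.Helper33.UNI.LREGu
import Pool.Agent.Helper33.UNI.LREG3u
import Pool.Agent.Helper91.UNI.REGu

/-! Assembly of project UNI (MP_9a3c31_nt), regulators: constants depending on the degree only. -/

set_option autoImplicit false

namespace Pool.Agent.Helper9.UNI

open Pool.Agent.Helper42.LS Pool.Agent.Helper42.LK Pool.Agent.Helper54.LS Pool.Agent.Helper54.LM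
  Pool.Agent.Helper92.LV Pool.Agent.Helper9.LS5 Pool.Agent.Helper54.LM3

theorem u_LS : ST_LLSu :=
  Pool.Agent.Helper53.UNI.LLSu lmall_PM Pool.Agent.Helper30.UNI.KPSu st_KMN st_LSC st_LSQ

theorem u_LMT : ST_LMTu :=
  Pool.Agent.Helper33.UNI.LMTu lmall_LB u_LS lmall_CX st_LSQ st_LMAP st_KGO st_KPOT kall_DF st_KFP
    u_SIX

theorem u_LREG : ST_LREGu := Pool.Agent.Helper33.UNI.LREGu lmall_FIN u_LMT lmall_BF st_LSQ u_SM

theorem u_LREG3 : ST_LREG3u := Pool.Agent.Helper33.UNI.LREG3u all_FIN3 u_LMT lmall_BF st_LSQ u_SM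

theorem u_REG : ST_REGu :=
  Pool.Agent.Helper91.UNI.REGu st_LGL lmall_CH u_LREG u_LREG3 kall_DF Pool.Agent.Helper70.UNI.CNT

end Pool.Agent.Helper9.UNI
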