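import Pool.Agent.Helper9.UNI.Sheet
import Pool.Agent.Helper30.UNI.Rows
import Pool.Agent.Helper51.UNI.KLS2u
import Pool.Agent.Helper89.UNI.SIX
import Pool.Agent.Helper89.UNI.KLOCu
import Pool.Agent.Helper70.UNI.CNT
import Pool.Agent.Helper12.UNI.KSMu
import Pool.Agent.Helper33.UNI.KMT3u
import Pool.Agent.Helper51.UNI.LVu
import Pool.Agent.Helper47.UNI.LVWu
import Pool.Agent.Helper33.UNI.PWu
import Pool.Agent.Helper33.UNI.SQRu

/-! Assembly of project UNI (MP_9a3c31_nt), one point: constants depending on the degree only. -/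

set_option autoImplicit false

namespace Pool.Agent.Helper9.UNI

open Pool.Agent.Helper42.LS Pool.Agent.Helper42.LK Pool.Agent.Helper54.LS Pool.Agent.Helper54.LM
  Pool.Agent.Helper92.LV Pool.Agent.Helper9.LS5 Pool.Agent.Helper54.LM3

/-! ### places -/

theorem u_LS2 : ST_KLS2u :=
  Pool.Agent.Helper51.UNI.KLS2u Pool.Agent.Helper30.UNI.KPS2u st_QCI all_PM2 st_KMN st_KSC

theorem u_SIX : ST_SIX := Pool.Agent.Helper89.UNI.SIX st_KFP

theorem u_LOC : ST_KLOCu := Pool.Agent.Helper89.UNI.KLOCu all_LB2 u_LS2 st_KFP u_SIX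

/-! ### curves of bounded size -/

theorem u_HBD : ST_HBD :=
  Pool.Agent.Helper30.UNI.HBD st_C02 st_KPOT st_KGO kall_DF st_KFP u_SIX

theorem u_SM : ST_KSMu := Pool.Agent.Helper12.UNI.KSMu u_HBD Pool.Agent.Helper70.UNI.CNT

/-! ### one point -/

theorem u_MT3 : ST_KMT3u :=
  Pool.Agent.Helper33.UNI.KMT3u u_LOC all_ARC st_KGO2 st_QCI st_KPOT2 kall_DF st_KFP all_DIV u_SIX

theorem u_LV : ST_LVu := Pool.Agent.Helper51.UNI.LVu u_MT3 all_COR (st_CK st_F2) u_SM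

theorem u_LVW : ST_LVWu := Pool.Agent.Helper47.UNI.LVWu u_MT3 (st_CK st_F2) u_SM u_LV

theorem u_PW : ST_PWu :=
  Pool.Agent.Helper33.UNI.PWu st_PTOR st_PSTR (st_PHER Pool.Agent.Helper19.LM.st_LBF)

theorem u_SQR : ST_SQRu := Pool.Agent.Helper33.UNI.SQRu u_LVW u_PW kall_DF

end Pool.Agent.Helper9.UNI
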