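import Pool.Agent.Helper92.LV.AllW
import Pool.Agent.Helper54.LM3.All3
import Pool.Agent.Helper9.LS5.AsmC

/-!
# Project UNI (MP_9a3c31_nt): constants that depend on the degree of the number field only

`SquareRoot`, `Regulators`, `Concentration` with `∃ c` BEFORE the number field `K`, for all `K` with
`[K : ℚ] ≤ D`. Almost every row is a light edit of an existing module. No row depends on another
file of this project: the rows used are hypotheses `(hX : ST_X)`.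
-/

set_option autoImplicit false

open Filter Topology NumberField

namespace Pool.Agent.Helper9.UNI

open Pool.Agent.Helper42.LS Pool.Agent.Helper42.LK Pool.Agent.Helper54.LS Pool.Agent.Helper54.LM
  Pool.Agent.Helper92.LV Pool.Agent.Helper9.LS5 Pool.Agent.Helper54.LM3

/-! ### 1. One place (discrete valuations) -/

/-- (KPSu) `ST_KPS` with an explicit constant. Copy `Helper84.LK.KPG`: there
`s = (a ^ 8 * b ^ 3)⁻¹`, `f = (a ^ 2)⁻¹`, `a = v.nr 2`, `b = v.nr 3`, the constant is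
`log (s ^ 7 * f) = 58 * (- log a) + 21 * (- log b)`, and `v.nr 6 = a * b` -/
def ST_KPSu : Prop := ∀ (F : Type) [Field F] [CharZero F] (v : DV F) (A B : F), dsc A B ≠ 0 →
  v.nr (6912 * A ^ 3) ≤ v.nr (dsc A B) → ∀ x y : ℕ → F, GSeq (0 : F) A B x y →
  ∃ U : ℕ → ℝ, (∀ k : ℕ, 1 ≤ k → 4 * U k - 100 * -Real.log (v.nr 6) ≤ U (2 * k) +
      Real.log (v.nr (4 * cu A B (x k)))) ∧
    (∃ C : ℝ, ∀ k : ℕ, 1 ≤ k → U k ≤ Real.log (max (v.nr (x k)) 1) + C) ∧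
    (∀ k : ℕ, 1 ≤ k → 1 / 6 * Real.log (v.nr (dsc A B)) ≤ U k)

/-- (KPS2u) `ST_KPS2` with an explicit constant. Copy `Helper84.LV.KPG`: the constant is
`log (s ^ 7 * f) + 4 * log s = 90 * (- log a) + 33 * (- log b)` -/
def ST_KPS2u : Prop := ∀ (F : Type) [Field F] [CharZero F] (v : DV F) (A B : F), dsc A B ≠ 0 →
  v.nr (6912 * A ^ 3) ≤ v.nr (dsc A B) → ∀ x y : ℕ → F, GSeq (0 : F) A B x y →
  ∃ R : ℝ, 0 < R ∧ Real.log R = 1 / 6 * Real.log (v.nr (dsc A B)) ∧ ∀ k : ℕ, 1 ≤ k →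
    |4 * Real.log (max (v.nr (x k)) R) - Real.log (max (v.nr (x (2 * k))) R) -
      Real.log (v.nr (4 * cu A B (x k)))| ≤ 100 * -Real.log (v.nr 6)

/-- (PHT) one inequality at every place, any reduction. Copy `kpgt_core`, `kpgt_dbl` and the first
half of `kpgt_main` of `Helper84.LV.KPG` with `f = (v.nr 2 ^ 2)⁻¹` and
`s = max (v.nr j) 1 * (a ^ 8 * b ^ 3)⁻¹`, `j = 6912 * A ^ 3 / dsc A B`: hypothesis
`v.nr A ^ 3 ≤ s ^ 6 * v.nr (dsc A B)` from `a ^ 8 * b ^ 3 * v.nr A ^ 3 = v.nr j * v.nr (dsc A B)`,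
hypothesis `v.nr B ^ 2 ≤ s ^ 6 * v.nr (dsc A B)` from `27 * B ^ 2 = dsc A B - 4 * A ^ 3`; the
loss is `log (s ^ 7 * f) = 7 * log (max (v.nr j) 1) + 58 * (- log a) + 21 * (- log b)` -/
def ST_PHT : Prop := ∀ (F : Type) [Field F] [CharZero F] (v : DV F) (A B : F), dsc A B ≠ 0 →
  ∀ x y : ℕ → F, GSeq (0 : F) A B x y →
  ∃ R : ℝ, 0 < R ∧ Real.log R = 1 / 6 * Real.log (v.nr (dsc A B)) ∧ ∀ k : ℕ, 1 ≤ k →
    4 * Real.log (max (v.nr (x k)) R) -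
      (7 * Real.log (max (v.nr (6912 * A ^ 3 / dsc A B)) 1) + 100 * -Real.log (v.nr 6)) ≤
      Real.log (max (v.nr (x (2 * k))) R) + Real.log (v.nr (4 * cu A B (x k)))

/-- (KLS2u) `ST_KLS2` with an explicit constant at the places above 6. Copy `Helper72.LV.KLS2` with
KPS2u (`C₁ = 100 * - log (v.nr 6)`); `L ≤ 25 * (v.ord 2 + v.ord 3)` since
`1 ≤ v.ord 2 + v.ord 3`, `v.ord 6912 = 8 * v.ord 2 + 3 * v.ord 3`, `v.ord 16 = 4 * v.ord 2`,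
`- log (v.nr 6) = (v.ord 2 + v.ord 3) * log q`, so `C₁ + 3 * C₂ ≤ 175 * - log (v.nr 6)` -/
def ST_KLS2u : Prop := ∀ (F : Type) [Field F] [CharZero F] (v : DV F),
  ¬ (v.ord 2 = 0 ∧ v.ord 3 = 0) → ∀ A B : F, dsc A B ≠ 0 → ∀ x y : ℕ → F, GSeq (0 : F) A B x y →
  ∃ (w t : ℝ) (n : ℕ) (U f : ℕ → ℝ), 0 ≤ w ∧ |w - dl v.nr A B| ≤ 200 * -Real.log (v.nr 6) ∧
    1 ≤ n ∧ (∃ a : ℤ, (n : ℝ) * t = a) ∧ (w ≠ 0 → n * Real.log v.q ≤ w) ∧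
    (∀ k : ℕ, 1 ≤ k → |4 * U k - U (2 * k) - Real.log (v.nr (4 * cu A B (x k)))| ≤
      200 * -Real.log (v.nr 6)) ∧
    (∃ C : ℝ, ∀ k : ℕ, 1 ≤ k → |U k - Real.log (max (v.nr (x k)) 1)| ≤ C) ∧
    QC 0 f ∧
    (∀ k : ℕ, 1 ≤ k →
      |U (12 * k) - (w * B2 (k * t) + 1 / 6 * Real.log (v.nr (dsc A B)) + f k)| ≤
        200 * -Real.log (v.nr 6))

/-- (LLSu) `ST_LLS` with an explicit constant at the places above 6. Copy `Helper94.LM.LLS` with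
KPSu, constants as in KLS2u -/
def ST_LLSu : Prop := ∀ (F : Type) [Field F] [CharZero F] (v : DV F),
  ¬ (v.ord 2 = 0 ∧ v.ord 3 = 0) →
  ∀ A B : F, dsc A B ≠ 0 → ∀ (m : ℕ) (X Y : (Fin m → ℤ) → F), GLat (0 : F) A B X Y →
  ∃ (w : ℝ) (t : Fin m → ℝ) (N : ℕ), 0 ≤ w ∧ |w - dl v.nr A B| ≤ 200 * -Real.log (v.nr 6) ∧
    1 ≤ N ∧ (∀ i, ∃ a : ℤ, (N : ℝ) * t i = a) ∧ (w ≠ 0 → N * Real.log v.q ≤ w) ∧
    ∀ k : Fin m → ℤ, k ≠ 0 → ∃ U : ℕ → ℝ,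
    (∀ n : ℕ, 1 ≤ n → 4 * U n - 200 * -Real.log (v.nr 6) ≤
      U (2 * n) + Real.log (v.nr (4 * cu A B (X (n • k))))) ∧
    (∃ C : ℝ, ∀ n : ℕ, 1 ≤ n → U n ≤ Real.log (max (v.nr (X (n • k))) 1) + C) ∧
    (∀ n : ℕ, 1 ≤ n → w * B2 (n * pr k t) + 1 / 6 * Real.log (v.nr (dsc A B)) -
      200 * -Real.log (v.nr 6) ≤ U (12 * n))

/-! ### 2. Number fields, uniform facts -/

/-- contribution of the places above 6 -/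
noncomputable def l6 {K : Type} [Field K] [NumberField K] (v : FinitePlace K) : ℝ :=
  -Real.log (v (6 : K))

/-- (SIX) the places above 6: product formula for `6`; `v 6 = v 2 * v 3`; if `v 6 < 1` then
`v 6 ≤ 1 / N v` (`N v` the norm of the prime, KFP); `∑ mult = [K : ℚ]` -/
def ST_SIX : Prop := ∀ (K : Type) [Field K] [NumberField K],
  {v : FinitePlace K | ¬ (v 2 = 1 ∧ v 3 = 1)}.Finite ∧
  (∀ v : FinitePlace K, 0 ≤ l6 v ∧ (v 2 = 1 → v 3 = 1 → l6 v = 0) ∧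
    (¬ (v 2 = 1 ∧ v 3 = 1) → lq v ≤ l6 v)) ∧
  (∀ v : FinitePlace K, Real.log 2 ≤ lq v) ∧
  (∀ T : Finset (FinitePlace K), ∑ v ∈ T, l6 v ≤ Module.finrank ℚ K * Real.log 6) ∧
  (∀ T : Finset (FinitePlace K), (∀ v ∈ T, ¬ (v 2 = 1 ∧ v 3 = 1)) →
    ∑ v ∈ T, lq v ≤ Module.finrank ℚ K * Real.log 6 ∧
    (T.card : ℝ) * Real.log 2 ≤ Module.finrank ℚ K * Real.log 6) ∧
  Fintype.card (InfinitePlace K) ≤ Module.finrank ℚ K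

/-- (KLOCu) `ST_KLOC` with an explicit constant: edit `Helper45.LV.KLOC` (KLB2, KLS2u, KFP, SIX) -/
def ST_KLOCu : Prop := ∀ (K : Type) [Field K] [NumberField K] (v : FinitePlace K) (A B : K),
  dsc A B ≠ 0 → ∀ x y : ℕ → K, GSeq (0 : K) A B x y →
  ∃ (w t : ℝ) (n : ℕ) (U f : ℕ → ℝ), 0 ≤ w ∧
    |w - dl (fun x : K => v x) A B| ≤ 200 * l6 v ∧ 1 ≤ n ∧
    (∃ a : ℤ, (n : ℝ) * t = a) ∧ (w ≠ 0 → n * lq v ≤ w) ∧ (w = 0 → n = 1 ∧ t = 0) ∧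
    (v 2 = 1 → v 3 = 1 → t ≠ 0 → IsMul (fun x : K => v x) A B) ∧
    (∀ k : ℕ, 1 ≤ k → |4 * U k - U (2 * k) - Real.log (v (4 * cu A B (x k)))| ≤ 200 * l6 v) ∧
    (∃ C : ℝ, ∀ k : ℕ, 1 ≤ k → |U k - Real.log (max (v (x k)) 1)| ≤ C) ∧
    QC 0 f ∧
    (∀ k : ℕ, 1 ≤ k →
      |U (12 * k) - (w * B2 (k * t) + 1 / 6 * Real.log (v (dsc A B)) + f k)| ≤ 200 * l6 v)

open Polynomial in
/-- (CNT) Northcott, uniform in the field: `n = ∏ (v finite) max (v z) 1 ≤ exp B` is a natural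
number, `n z` is integral with all conjugates at most `exp (2 B)`; `p = q (n X)`, `q` the minimal
polynomial of `n z` over `ℤ` (monic, degree at most `D`, coefficients bounded,
`Polynomial.coeff_bdd_of_roots_le` as in `NumberField.Embeddings.finite_of_norm_le`) -/
def ST_CNT : Prop := ∀ (D : ℕ) (B : ℝ), ∃ F : Finset ℤ[X], (∀ p ∈ F, p ≠ 0 ∧ p.natDegree ≤ D) ∧
  ∀ (K : Type) [Field K] [NumberField K], Module.finrank ℚ K ≤ D → ∀ z : K,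
    Height.logHeight₁ z ≤ B → ∃ p ∈ F, aeval z p = 0

/-- (HBD) height bound for all multiples. PHT (all finite places), C02 with `J₀ = exp H₀` (infinite
places: `log (w j) ≤ H₀` by KDF), KPOT for the given `k` with `S` = the bad places and those with
`v (x k) > 1`, `U v i = log (max (v (x i)) (R v))`, `D v = 7 * log (max (v j) 1) + 100 * l6 v`;
`∑ D v ≤ 7 * HK + 100 * D * log 6` (KDF, SIX); product formula for `dsc A B`, `R v ^ 6 = v (dsc)`,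
`R v = 1` outside `S`: `h (x k ^ 6 / dsc) = 6 * ∑ log (max (v (x k)) (R v))`
(`NumberField.logHeight₁_eq`) -/
def ST_HBD : Prop := ∀ (D : ℕ) (H₀ : ℝ), ∃ C : ℝ, 0 ≤ C ∧
  ∀ (K : Type) [Field K] [NumberField K], Module.finrank ℚ K ≤ D → ∀ A B : K, dsc A B ≠ 0 →
  HK A B ≤ H₀ → ∀ (x y : ℕ → K) (e : ℝ), GSeq (0 : K) A B x y → IsCanK x e → ∀ k : ℕ, 1 ≤ k →
    Height.logHeight₁ (x k ^ 6 / dsc A B) ≤ 6 * (k : ℝ) ^ 2 * e + C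

/-- (KSMu) uniform lower bound for curves of bounded size. HBD, CNT with `B = 6 + C`; `M` = card of
`F`; if `N ^ 2 * e ≤ 1` then the values `x k ^ 6 / dsc`, `1 ≤ k ≤ N`, are roots of the `p ∈ F`, at
most `M * D` values, each taken at most 6 times (`GSeq.xne`), so `N ≤ 6 * M * D`;
`c = 1 / (6 * M * D + 1) ^ 2` -/
def ST_KSMu : Prop := ∀ (D : ℕ) (H₀ : ℝ), ∃ c : ℝ, 0 < c ∧
  ∀ (K : Type) [Field K] [NumberField K], Module.finrank ℚ K ≤ D → ∀ A B : K, dsc A B ≠ 0 →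
  HK A B ≤ H₀ → ∀ (x y : ℕ → K) (e : ℝ), GSeq (0 : K) A B x y → IsCanK x e → c ≤ e

/-! ### 3. One point -/

/-- (KMT3u) `ST_KMT3` uniform: edit `Helper92.LV.KMT3` (`kmt3_transport` is there). `C₀` depends on
`D` (and `CX`, `CD`) only; `ε v = 200 * l6 v`, `C1 = ∑ v ∈ S6, 200 * l6 v`; with
`hle : 2 * C1 + C2 + C3 + C4 + C5 + 2 * (d * CX) + d * (CD * CX) + 1 ≤ C₀` the steps
`rw [hC₀]; linarith` become `linarith` (KLOCu, KARC, KGO2, QCI, KPOT2, KDF, KFP, DIV, SIX) -/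
def ST_KMT3u : Prop := ∀ D : ℕ, ∃ C₀ : ℝ, 0 ≤ C₀ ∧
  ∀ (K : Type) [Field K] [NumberField K], Module.finrank ℚ K ≤ D →
  ∀ A B : K, dsc A B ≠ 0 → ∀ (x y : ℕ → K) (e : ℝ), GSeq (0 : K) A B x y → IsCanK x e →
  0 ≤ LD A B ∧
  ∃ H : ℝ, LD A B ≤ H ∧ H ≤ HK A B ∧ HK A B ≤ 2 * H ∧
  ∃ (V Vf : Finset ℕ) (w t : ℕ → ℝ) (n : ℕ → ℕ),
    MSum C₀ H (LD A B) (LR A B) (mK A B) e V Vf w t n ∧ MSgn C₀ e V w t ∧
    (∀ E : ℝ, 0 ≤ E →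
      ∑ v ∈ Vf.filter (fun v => E + C₀ < (n v : ℝ)), w v ≤ LX A B E + C₀) ∧
    ∀ v : FinitePlace K, ∃ i ∈ V, dl (fun x : K => v x) A B - C₀ ≤ w i

/-- (LVu) `ST_LV` uniform: edit `Helper3.LV.FIN` (KMT3u in place of KMT2, COR, CK, KSMu) -/
def ST_LVu : Prop := ∀ D : ℕ, ∃ c : ℝ, 0 < c ∧
  ∀ (K : Type) [Field K] [NumberField K], Module.finrank ℚ K ≤ D →
  ∀ A B : K, dsc A B ≠ 0 → ∀ (x y : ℕ → K) (e : ℝ), GSeq (0 : K) A B x y → IsCanK x e →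
  c * (1 + HK A B) ^ (-(1 / 2 : ℝ)) ≤ e ∧
  ∀ E : ℝ, 1 ≤ E → E * LX A B E ≤ c * (1 + HK A B) → c * (1 + HK A B) / E ^ 3 ≤ e

/-- (LVWu) `ST_LVW` uniform: edit `Helper92.LV.Big`, both theorems (KMT3u, CK, KSMu, LVu) -/
def ST_LVWu : Prop := ∀ D : ℕ, ∃ c : ℝ, 0 < c ∧
  ∀ (K : Type) [Field K] [NumberField K], Module.finrank ℚ K ≤ D →
  ∀ A B : K, dsc A B ≠ 0 → ∀ (x y : ℕ → K) (e : ℝ), GSeq (0 : K) A B x y → IsCanK x e →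
  c * (1 + HK A B) ^ (-(1 / 2 : ℝ)) ≤ e ∧
  ∀ X : ℝ, 1 ≤ X → X * LW A B X ≤ c * (1 + HK A B) → c * (1 + HK A B) / X ^ 3 ≤ e

/-- (PWu) `ST_PW` with `c` depending on `m` only: in `Helper78.LV.PW` the constant is
`(∑ r ∈ Finset.Icc 1 m, (f r)⁻¹)⁻¹`, independent of `K` (PTOR, PSTR, PHER) -/
def ST_PWu : Prop := ∀ m : ℕ, 1 ≤ m → ∃ c : ℝ, 0 < c ∧
  ∀ (K : Type) [Field K] [NumberField K] [DecidableEq K] (A B : K), 4 * A ^ 3 + 27 * B ^ 2 ≠ 0 →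
  ∀ μ : ℝ, 0 ≤ μ →
  (∀ Q : (ECK A B).toAffine.Point, (∀ n : ℕ, 0 < n → n • Q ≠ 0) → ∀ e : ℝ,
    Tendsto (fun n : ℕ => hxK (2 ^ n • Q) / 4 ^ n) atTop (𝓝 e) → μ ≤ e) →
  ∀ P : Fin m → (ECK A B).toAffine.Point, (∃ i, ∀ n : ℕ, 0 < n → n • P i ≠ 0) →
  ∃ G : Matrix (Fin m) (Fin m) ℝ, IsGr P G ∧
    ∀ S : Matrix (Fin m) (Fin m) ℤ, (S.map (fun z : ℤ => (z : ℝ))).PosDef →
      c * μ ≤ ∑ i, ∑ j, (S i j : ℝ) * G i j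

/-- (SQRu) the theorem on points: edit `lvw_all` of `Helper92.LV.AllW` (LVWu, PWu, KDF) -/
def ST_SQRu : Prop := ∀ D m : ℕ, 1 ≤ m → ∃ c : ℝ, 0 < c ∧
  ∀ (K : Type) [Field K] [NumberField K] [DecidableEq K], Module.finrank ℚ K ≤ D →
  ∀ A B : K, 4 * A ^ 3 + 27 * B ^ 2 ≠ 0 →
  ∀ P : Fin m → (ECK A B).toAffine.Point, (∃ i, ∀ n : ℕ, 0 < n → n • P i ≠ 0) →
  ∃ G : Matrix (Fin m) (Fin m) ℝ, IsGr P G ∧
    ∀ S : Matrix (Fin m) (Fin m) ℤ, (S.map (fun z : ℤ => (z : ℝ))).PosDef →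
      c * (1 + HK A B) ^ (-(1 / 2 : ℝ)) ≤ ∑ i, ∑ j, (S i j : ℝ) * G i j ∧
      ∀ X : ℝ, 1 ≤ X → X * LW A B X ≤ c * (1 + HK A B) →
        c * (1 + HK A B) / X ^ 3 ≤ ∑ i, ∑ j, (S i j : ℝ) * G i j

/-! ### 4. Several points: regulators -/

/-- (LMTu) `ST_LMT` uniform: edit `Helper11.LM.LMT` (LLB, LLSu, LCX, LSQ, LMAP, KGO, KPOT, KDF,
KFP, SIX), as KMT3u -/
def ST_LMTu : Prop := ∀ D m : ℕ, ∃ C₀ : ℝ, 0 ≤ C₀ ∧
  ∀ (K : Type) [Field K] [NumberField K], Module.finrank ℚ K ≤ D →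
  ∀ A B : K, dsc A B ≠ 0 → ∀ (X Y : (Fin m → ℤ) → K) (e : (Fin m → ℤ) → ℝ),
  GLat (0 : K) A B X Y → (∀ k, k ≠ 0 → IsCanK (fun n : ℕ => X (n • k)) (e k)) →
  ∃ H : ℝ, 0 ≤ H ∧ H ≤ HK A B ∧ HK A B ≤ 2 * H ∧
  ∃ (V Vf : Finset ℕ) (w : ℕ → ℝ) (t : ℕ → Fin m → ℝ) (N : ℕ → ℕ),
    LSum C₀ H e V Vf w t N

/-- (LREGu) `ST_LREG` uniform: edit `Helper54.LM.LREG` (LFIN, LMTu, LBF, LSQ, KSMu) -/
def ST_LREGu : Prop := ∀ D m : ℕ, 1 ≤ m → ∃ c : ℝ, 0 < c ∧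
  ∀ (K : Type) [Field K] [NumberField K], Module.finrank ℚ K ≤ D →
  ∀ A B : K, dsc A B ≠ 0 → ∀ (X Y : (Fin m → ℤ) → K) (G : Matrix (Fin m) (Fin m) ℝ),
  GLat (0 : K) A B X Y → G.IsSymm → (∀ k, k ≠ 0 → IsCanK (fun n : ℕ => X (n • k)) (qf G k)) →
  c * (1 + HK A B) ^ gam m ≤ G.det

/-- (LREG3u) `ST_LREG3` uniform: edit `LREG3` of `Helper54.LM3.LREG3` (LFIN3, LMTu, LBF, LSQ,
KSMu) -/
def ST_LREG3u : Prop := ∀ D m : ℕ, 1 ≤ m → ∃ c : ℝ, 0 < c ∧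
  ∀ (K : Type) [Field K] [NumberField K], Module.finrank ℚ K ≤ D →
  ∀ A B : K, dsc A B ≠ 0 → ∀ (X Y : (Fin m → ℤ) → K) (G : Matrix (Fin m) (Fin m) ℝ),
  GLat (0 : K) A B X Y → G.IsSymm → (∀ k, k ≠ 0 → IsCanK (fun n : ℕ => X (n • k)) (qf G k)) →
  c * (1 + HK A B) ^ g3 m ≤ G.det

open Polynomial in
/-- (REGu) the theorem on points: edit `FINAL3` of `Helper54.LM3.LREG3` (LGL, LCH, LREGu, LREG3u,
KDF); last part: `G.det ≤ R` bounds `HK A B`, hence the height of `6912 A³ / dsc` (the second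
summand of `HK`), CNT. For `m ≥ 3` the exponent is positive (see `Helper54.LM.FINAL`) -/
def ST_REGu : Prop := ∀ D m : ℕ, 1 ≤ m →
  (∃ c : ℝ, 0 < c ∧ ∀ (K : Type) [Field K] [NumberField K] [DecidableEq K],
    Module.finrank ℚ K ≤ D → ∀ A B : K, 4 * A ^ 3 + 27 * B ^ 2 ≠ 0 →
    ∀ P : Fin m → (ECK A B).toAffine.Point, Indep P →
    ∃ G : Matrix (Fin m) (Fin m) ℝ, IsGram P G ∧
      c * (1 + HK A B) ^ (max (gam m) (g3 m)) ≤ G.det ∧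
      ∀ S : Matrix (Fin m) (Fin m) ℤ, (S.map (fun z : ℤ => (z : ℝ))).PosDef →
        c * (1 + HK A B) ^ (max (gam m) (g3 m) / m) ≤ ∑ i, ∑ j, (S i j : ℝ) * G i j) ∧
  (3 ≤ m → ∀ R : ℝ, ∃ F : Finset ℤ[X], (∀ p ∈ F, p ≠ 0) ∧
    ∀ (K : Type) [Field K] [NumberField K] [DecidableEq K], Module.finrank ℚ K ≤ D →
    ∀ A B : K, 4 * A ^ 3 + 27 * B ^ 2 ≠ 0 →
    ∀ P : Fin m → (ECK A B).toAffine.Point, Indep P →
    ∀ G : Matrix (Fin m) (Fin m) ℝ, IsGram P G → G.det ≤ R →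
      ∃ p ∈ F, aeval (6912 * A ^ 3 / (4 * A ^ 3 + 27 * B ^ 2)) p = 0)

/-! ### 5. Several points: concentration -/

/-- (LMT3u) `ST_LMT3` uniform: edit `Helper66.LS5.LMT3` (LLB2, LLSu, LCX, LSQ, LMAP, KGO, KPOT,
KDF, KFP, SIX) -/
def ST_LMT3u : Prop := ∀ D m : ℕ, ∃ C₀ : ℝ, 0 ≤ C₀ ∧
  ∀ (K : Type) [Field K] [NumberField K], Module.finrank ℚ K ≤ D →
  ∀ A B : K, dsc A B ≠ 0 → ∀ (X Y : (Fin m → ℤ) → K) (e : (Fin m → ℤ) → ℝ),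
  GLat (0 : K) A B X Y → (∀ k, k ≠ 0 → IsCanK (fun n : ℕ => X (n • k)) (e k)) →
  ∃ (T : Finset (FinitePlace K)) (wf : FinitePlace K → ℝ) (tf : FinitePlace K → Fin m → ℝ)
    (ti : InfinitePlace K → Fin m → ℝ),
    (∀ v : FinitePlace K, v ∉ T → v 2 = 1 ∧ v 3 = 1 ∧ dl (fun z : K => v z) A B = 0) ∧
    (∀ v, 0 ≤ wf v) ∧ ∑ v ∈ T, |wf v - dl (fun z : K => v z) A B| ≤ C₀ ∧
    (∀ v : FinitePlace K, v 2 = 1 → v 3 = 1 → wf v = dl (fun z : K => v z) A B ∧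
      ∀ i, Sg (tf v i) (tz (fun z : K => v z) A B (X (Pi.single i 1)))) ∧
    ∀ k : Fin m → ℤ, k ≠ 0 → ∑ v ∈ T, wf v * B2 (pr k (tf v)) +
      ∑ w : InfinitePlace K, (w.mult : ℝ) * max 0 (Real.log (w (6912 * A ^ 3 / dsc A B))) *
        B2 (pr k (ti w)) - C₀ ≤ 144 * e k

/-- (CONCu) `ST_CONC` uniform: edit `Helper66.LS5.CONC` (LMT3u, CFIN, SGN, LREGu, KDF, SIX) -/
def ST_CONCu : Prop := ∀ D m : ℕ, 1 ≤ m → ∃ c : ℝ, 0 < c ∧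
  ∀ (K : Type) [Field K] [NumberField K], Module.finrank ℚ K ≤ D →
  ∀ A B : K, dsc A B ≠ 0 → ∀ (X Y : (Fin m → ℤ) → K) (G : Matrix (Fin m) (Fin m) ℝ),
  GLat (0 : K) A B X Y → G.IsSymm → (∀ k, k ≠ 0 → IsCanK (fun n : ℕ => X (n • k)) (qf G k)) →
  ∀ T : Finset (FinitePlace K), c * (1 + HK A B) ^ m *
    rho A B (fun i => X (Pi.single i 1)) T ^ ((2 * (m : ℝ) + 6) / 3) ≤ G.det

/-- (CONC3u) `ST_CONC3` uniform: edit `CONC3` of `Helper54.LM3.CONC3` (LMT3u, CFIN3, SGN, LREGu,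
KDF, SIX) -/
def ST_CONC3u : Prop := ∀ D m : ℕ, 1 ≤ m → ∃ c : ℝ, 0 < c ∧
  ∀ (K : Type) [Field K] [NumberField K], Module.finrank ℚ K ≤ D →
  ∀ A B : K, dsc A B ≠ 0 → ∀ (X Y : (Fin m → ℤ) → K) (G : Matrix (Fin m) (Fin m) ℝ),
  GLat (0 : K) A B X Y → G.IsSymm → (∀ k, k ≠ 0 → IsCanK (fun n : ℕ => X (n • k)) (qf G k)) →
  ∀ T : Finset (FinitePlace K), c * (1 + HK A B) ^ m *
    rho A B (fun i => X (Pi.single i 1)) T ^ (((m : ℝ) + 6) / 2) ≤ G.det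

/-- (CMKu) `ST_CMK` uniform: edit `Helper67.LS5.CMK` (KDF, SIX) -/
def ST_CMKu : Prop := ∀ D : ℕ, ∃ C : ℝ, 0 < C ∧
  ∀ (K : Type) [Field K] [NumberField K], Module.finrank ℚ K ≤ D →
  ∀ A B : K, dsc A B ≠ 0 → ∀ (m : ℕ) (x : Fin m → K), ∃ T : Finset (FinitePlace K),
    1 ≤ C * (1 + (mK A B : ℝ)) * rho A B x T

/-- (CPTMu) `ST_CPTM` uniform: edit `CONCM` and `CPTM` of `Helper54.LM3.CONC3` (LGL, LCH, CONCu,
CONC3u, CMKu, KDF) -/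
def ST_CPTMu : Prop := ∀ D m : ℕ, 1 ≤ m → ∃ c : ℝ, 0 < c ∧
  ∀ (K : Type) [Field K] [NumberField K] [DecidableEq K], Module.finrank ℚ K ≤ D →
  ∀ A B : K, 4 * A ^ 3 + 27 * B ^ 2 ≠ 0 →
  ∀ P : Fin m → (ECK A B).toAffine.Point, Indep P →
  ∃ G : Matrix (Fin m) (Fin m) ℝ, IsGram P G ∧
    (∀ T : Finset (FinitePlace K),
      c * (1 + HK A B) ^ m * rho A B (fun i => xco (P i)) T ^
        (min ((2 * (m : ℝ) + 6) / 3) (((m : ℝ) + 6) / 2)) ≤ G.det ∧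
      ∀ S : Matrix (Fin m) (Fin m) ℤ, (S.map (fun z : ℤ => (z : ℝ))).PosDef →
        c * (1 + HK A B) * rho A B (fun i => xco (P i)) T ^
          (min ((2 * (m : ℝ) + 6) / 3) (((m : ℝ) + 6) / 2) / m) ≤
          ∑ i, ∑ j, (S i j : ℝ) * G i j) ∧
    c * (1 + HK A B) ^ m *
      (1 + (mK A B : ℝ)) ^ (-(min ((2 * (m : ℝ) + 6) / 3) (((m : ℝ) + 6) / 2))) ≤ G.det ∧
    ∀ S : Matrix (Fin m) (Fin m) ℤ, (S.map (fun z : ℤ => (z : ℝ))).PosDef →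
      c * (1 + HK A B) *
        (1 + (mK A B : ℝ)) ^ (-(min ((2 * (m : ℝ) + 6) / 3) (((m : ℝ) + 6) / 2) / m)) ≤
        ∑ i, ∑ j, (S i j : ℝ) * G i j

end Pool.Agent.Helper9.UNI
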